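import Pool.Agent.R559.NP.Near3

/-!
# Few classes near a given point: exceptional sets which are not monotone in the size

`near_dyad`: objects with few exceptional classes at every dyadic size, without a monotonicity hypothesis.
-/

set_option autoImplicit false

namespace Pool.Agent.R770.NP

open Filter Topology

/-- the number of dyadic scales up to `T` -/
theorem log_count (j : ℕ) : ∃ C : ℝ, 0 ≤ C ∧ ∀ T : ℕ, 1 ≤ T →
    ((Nat.log 2 T + 1 : ℕ) : ℝ) ≤ C * (T : ℝ) ^ (1 / ((j : ℝ) + 1)) := by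
  refine ⟨2 * ((j : ℝ) + 1) + 1, by positivity, fun T hT => ?_⟩
  have hT1 : (1 : ℝ) ≤ (T : ℝ) := by exact_mod_cast hT
  have hT0 : (0 : ℝ) < (T : ℝ) := by linarith
  have h1 : (1 : ℝ) ≤ (T : ℝ) ^ (1 / ((j : ℝ) + 1)) := Real.one_le_rpow hT1 (by positivity)
  have h2 : Real.log T ≤ ((j : ℝ) + 1) * (T : ℝ) ^ (1 / ((j : ℝ) + 1)) := by
    have h3 := Real.log_le_sub_one_of_pos (x := (T : ℝ) ^ (1 / ((j : ℝ) + 1))) (by positivity)
    rw [Real.log_rpow hT0] at h3
    have h4 : (0 : ℝ) < (j : ℝ) + 1 := by positivity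
    have h5 : Real.log T = ((j : ℝ) + 1) * (1 / ((j : ℝ) + 1) * Real.log T) := by
      field_simp
    rw [h5]
    apply mul_le_mul_of_nonneg_left _ h4.le
    linarith
  have h6 : ((Nat.log 2 T : ℕ) : ℝ) ≤ 2 * Real.log T := by
    have h7 : (2 : ℝ) ^ (Nat.log 2 T) ≤ T := by
      exact_mod_cast Nat.pow_log_le_self 2 (by omega)
    have h8 := Real.log_le_log (by positivity) h7
    rw [Real.log_pow] at h8
    have h9 : (1 / 2 : ℝ) ≤ Real.log 2 := by
      have := Real.log_two_gt_d9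
      linarith
    have h10 : (0 : ℝ) ≤ (Nat.log 2 T : ℕ) := Nat.cast_nonneg _
    nlinarith
  push_cast
  nlinarith

/-- **Few classes near a given point, dyadic version.** `Bad j y k f`: `f` is exceptional at the size `2 ^ k`. -/
theorem near_dyad {M X Y : Type} [MetricSpace X] [Countable Y] (r : Setoid M) (hc : Countable (Quotient r))
    (φ : M → X) (hφ : ∀ f g, r f g → φ f = φ g) (Bad : ℕ → Y → ℕ → M → Prop)
    (hcount : ∀ (j : ℕ) (y : Y), ∃ C : ℝ, ∀ k : ℕ, ∀ S : Finset M, (∀ f ∈ S, Bad j y k f) →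
      (∀ f ∈ S, ∀ g ∈ S, f ≠ g → ¬ r f g) → (S.card : ℝ) ≤ C * ((2 : ℝ) ^ k) ^ (1 / ((j : ℝ) + 1))) :
    ∃ E : Set X, dimH E = 0 ∧ ∀ ξ : X, ξ ∉ E → ∀ τ : ℝ, 0 < τ → ∃ j : ℕ, ∀ (y : Y) (κ : ℝ), ∃ S : Finset M,
      ∀ (f : M) (k : ℕ), Bad j y k f → dist (φ f) ξ ≤ κ * ((2 : ℝ) ^ k) ^ (-τ) → ∃ g ∈ S, r g f := by
  classical
  choose C hC using hcount
  obtain ⟨E, hE, hE'⟩ := R559.NP.near_zero_lvl (Z := Quotient r) (Y := Y) (X := X)
    (F := fun j y T => {z | ∃ (k : ℕ) (f : M), 2 ^ k ≤ T ∧ Quotient.mk r f = z ∧ Bad j y k f})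
    (by
      rintro j y t t' htt z ⟨k, f, h0, h1, h2⟩
      exact ⟨k, f, h0.trans htt, h1, h2⟩)
    (s := fun j => 1 / ((j : ℝ) + 1) + 1 / ((j : ℝ) + 1)) (fun j => by positivity)
    (by
      have := (tendsto_one_div_add_atTop_nhds_zero_nat (𝕜 := ℝ)).add
        (tendsto_one_div_add_atTop_nhds_zero_nat (𝕜 := ℝ))
      simpa using this)
    (by
      intro j y
      obtain ⟨L, hL0, hL⟩ := log_count j
      refine ⟨|C j y| * L, fun T hT => ?_⟩
      have hT1 : (1 : ℝ) ≤ (T : ℝ) := by exact_mod_cast hT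
      have hT0 : (0 : ℝ) < (T : ℝ) := by linarith
      -- one scale
      set Q : ℕ → Set (Quotient r) := fun k => {z | ∃ f : M, Quotient.mk r f = z ∧ Bad j y k f} with hQ
      have key : ∀ k, ∀ P : Finset (Quotient r), (∀ z ∈ P, z ∈ Q k) →
          (P.card : ℝ) ≤ C j y * ((2 : ℝ) ^ k) ^ (1 / ((j : ℝ) + 1)) := by
        intro k P hP
        have hP' : ∀ z : Quotient r, ∃ f : M, z ∈ P → Quotient.mk r f = z ∧ Bad j y k f := by
          intro z
          by_cases h : z ∈ P
          · obtain ⟨f, hf⟩ := hP z h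
            exact ⟨f, fun _ => hf⟩
          · exact ⟨z.out, fun h' => absurd h' h⟩
        choose g hg using hP'
        have hinj : Set.InjOn g P := by
          intro z hz z' hz' he
          rw [← (hg z hz).1, ← (hg z' hz').1, he]
        rw [← Finset.card_image_of_injOn hinj]
        refine hC j y k (P.image g) ?_ ?_
        · intro f hf
          obtain ⟨z, hz, rfl⟩ := Finset.mem_image.1 hf
          exact (hg z hz).2
        · intro f hf f' hf' hne hr
          obtain ⟨z, hz, rfl⟩ := Finset.mem_image.1 hf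
          obtain ⟨z', hz', rfl⟩ := Finset.mem_image.1 hf'
          apply hne
          have : z = z' := by
            rw [← (hg z hz).1, ← (hg z' hz').1]
            exact Quotient.sound (s := r) hr
          rw [this]
      have hfin : ∀ k, (Q k).Finite := by
        intro k
        by_contra hinf
        obtain ⟨P, hP1, hP2⟩ := (show (Q k).Infinite from hinf).exists_subset_card_eq
          (⌊C j y * ((2 : ℝ) ^ k) ^ (1 / ((j : ℝ) + 1))⌋₊ + 1)
        have h2 := key k P (fun x hx => hP1 hx)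
        rw [hP2] at h2
        push_cast at h2
        have h3 := Nat.lt_floor_add_one (C j y * ((2 : ℝ) ^ k) ^ (1 / ((j : ℝ) + 1)))
        linarith
      have hcard : ∀ k, 2 ^ k ≤ T → ((hfin k).toFinset.card : ℝ) ≤ |C j y| * (T : ℝ) ^ (1 / ((j : ℝ) + 1)) := by
        intro k hk
        have h1 := key k (hfin k).toFinset (fun x hx => by
          rw [Set.Finite.mem_toFinset] at hx
          exact hx)
        refine h1.trans ?_
        have h2 : ((2 : ℝ) ^ k) ^ (1 / ((j : ℝ) + 1)) ≤ (T : ℝ) ^ (1 / ((j : ℝ) + 1)) := by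
          apply Real.rpow_le_rpow (by positivity) _ (by positivity)
          exact_mod_cast hk
        calc C j y * ((2 : ℝ) ^ k) ^ (1 / ((j : ℝ) + 1))
            ≤ |C j y| * ((2 : ℝ) ^ k) ^ (1 / ((j : ℝ) + 1)) :=
              mul_le_mul_of_nonneg_right (le_abs_self _) (by positivity)
          _ ≤ _ := mul_le_mul_of_nonneg_left h2 (abs_nonneg _)
      -- all scales
      set F : Finset (Quotient r) := (Finset.range (Nat.log 2 T + 1)).biUnion fun k => (hfin k).toFinset with hF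
      have hsub : {z : Quotient r | ∃ (k : ℕ) (f : M), 2 ^ k ≤ T ∧ Quotient.mk r f = z ∧ Bad j y k f} ⊆
          (F : Set (Quotient r)) := by
        rintro z ⟨k, f, h0, h1, h2⟩
        rw [Finset.mem_coe, hF, Finset.mem_biUnion]
        refine ⟨k, ?_, ?_⟩
        · rw [Finset.mem_range, Nat.lt_add_one_iff]
          exact (Nat.le_log_iff_pow_le (by norm_num) (by omega)).2 h0
        · rw [Set.Finite.mem_toFinset]
          exact ⟨f, h1, h2⟩
      refine ⟨F.finite_toSet.subset hsub, ?_⟩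
      have h1 : (({z : Quotient r | ∃ (k : ℕ) (f : M), 2 ^ k ≤ T ∧ Quotient.mk r f = z ∧ Bad j y k f}.ncard :
          ℕ) : ℝ) ≤ (F.card : ℝ) := by
        have := Set.ncard_le_ncard hsub F.finite_toSet
        rw [Set.ncard_coe_finset] at this
        exact_mod_cast this
      refine h1.trans ?_
      have h2 : (F.card : ℝ) ≤ ∑ k ∈ Finset.range (Nat.log 2 T + 1), ((hfin k).toFinset.card : ℝ) := by
        have := Finset.card_biUnion_le (s := Finset.range (Nat.log 2 T + 1)) (t := fun k => (hfin k).toFinset)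
        rw [← hF] at this
        exact_mod_cast this
      refine h2.trans ?_
      have h3 : ∑ k ∈ Finset.range (Nat.log 2 T + 1), ((hfin k).toFinset.card : ℝ) ≤
          ∑ _k ∈ Finset.range (Nat.log 2 T + 1), |C j y| * (T : ℝ) ^ (1 / ((j : ℝ) + 1)) := by
        apply Finset.sum_le_sum
        intro k hk
        rw [Finset.mem_range, Nat.lt_add_one_iff] at hk
        exact hcard k ((Nat.le_log_iff_pow_le (by norm_num) (by omega)).1 hk)
      refine h3.trans ?_
      rw [Finset.sum_const, Finset.card_range, nsmul_eq_mul, Real.rpow_add hT0]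
      have h4 := hL T hT
      have h5 : 0 ≤ |C j y| * (T : ℝ) ^ (1 / ((j : ℝ) + 1)) := by positivity
      calc ((Nat.log 2 T + 1 : ℕ) : ℝ) * (|C j y| * (T : ℝ) ^ (1 / ((j : ℝ) + 1)))
          ≤ (L * (T : ℝ) ^ (1 / ((j : ℝ) + 1))) * (|C j y| * (T : ℝ) ^ (1 / ((j : ℝ) + 1))) :=
            mul_le_mul_of_nonneg_right h4 h5
        _ = _ := by ring)
    (fun _ z => φ z.out)
  refine ⟨E, hE, fun ξ hξ τ hτ => ?_⟩
  obtain ⟨j, hj⟩ := hE' ξ hξ τ hτ
  refine ⟨j, fun y κ => ?_⟩
  have hfin := hj y κ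
  refine ⟨hfin.toFinset.image Quotient.out, fun f k hf hd => ?_⟩
  refine ⟨(Quotient.mk r f).out, ?_, Quotient.exact (Quotient.out_eq (Quotient.mk r f))⟩
  apply Finset.mem_image_of_mem
  rw [Set.Finite.mem_toFinset]
  refine ⟨2 ^ k, Nat.one_le_two_pow, ⟨k, f, le_refl _, rfl, hf⟩, ?_⟩
  have h1 : φ (Quotient.mk r f).out = φ f := hφ _ _ (Quotient.exact (Quotient.out_eq (Quotient.mk r f)))
  rw [h1]
  push_cast
  exact hd

end Pool.Agent.R770.NP
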