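import Pool.Agent.R770.NP.Dyad

/-!
# From arbitrary sizes to dyadic sizes
-/

set_option autoImplicit false

namespace Pool.Agent.R770.NP

theorem card_le_of_cover {M : Type} (r : Setoid M) (S S0 : Finset M) (hcov : ∀ f ∈ S, ∃ s ∈ S0, r f s)
    (hsep : ∀ f ∈ S, ∀ g ∈ S, f ≠ g → ¬ r f g) : S.card ≤ S0.card := by
  classical
  have h : ∀ f : M, ∃ s : M, f ∈ S → s ∈ S0 ∧ r f s := by
    intro f
    by_cases hf : f ∈ S
    · obtain ⟨s, h1, h2⟩ := hcov f hf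
      exact ⟨s, fun _ => ⟨h1, h2⟩⟩
    · exact ⟨f, fun h' => absurd h' hf⟩
  choose g hg using h
  refine Finset.card_le_card_of_injOn g (fun f hf => (hg f hf).1) ?_
  intro f hf f' hf' he
  by_contra hne
  apply hsep f hf f' hf' hne
  have h1 := (hg f hf).2
  have h2 := (hg f' hf').2
  rw [he] at h1
  exact r.trans' h1 (r.symm' h2)

theorem lt_two_pow (T : ℕ) : T < 2 ^ (Nat.log 2 T + 1) := Nat.lt_pow_succ_log_self (by norm_num) T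

theorem two_pow_le {T : ℕ} (hT : 1 ≤ T) : 2 ^ (Nat.log 2 T + 1) ≤ 2 * T := by
  have := Nat.pow_log_le_self 2 (x := T) (by omega)
  rw [pow_succ]
  omega

theorem two_pow_le_sq {T : ℕ} (hT : 2 ≤ T) : 2 ^ (Nat.log 2 T + 1) ≤ T ^ 2 := by
  have := two_pow_le (T := T) (by omega)
  nlinarith

theorem dist_dyad {κ τ d : ℝ} {T : ℕ} (hT : 1 ≤ T) (hτ : 0 < τ) (hd0 : 0 ≤ d) (hd : d ≤ κ * (T : ℝ) ^ (-τ)) :
    d ≤ (κ * 2 ^ τ) * ((2 : ℝ) ^ (Nat.log 2 T + 1)) ^ (-τ) := by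
  have hT0 : (0 : ℝ) < (T : ℝ) := by exact_mod_cast (by omega : 0 < T)
  have h1 : (0 : ℝ) < (T : ℝ) ^ (-τ) := by positivity
  have hκ : 0 ≤ κ := by
    by_contra hneg
    push Not at hneg
    have : κ * (T : ℝ) ^ (-τ) < 0 := mul_neg_of_neg_of_pos hneg h1
    linarith
  have h2 : (2 : ℝ) ^ (Nat.log 2 T + 1) ≤ 2 * T := by exact_mod_cast two_pow_le hT
  have h3 : (2 * (T : ℝ)) ^ (-τ) ≤ ((2 : ℝ) ^ (Nat.log 2 T + 1)) ^ (-τ) :=
    Real.rpow_le_rpow_of_nonpos (by positivity) h2 (by linarith)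
  have h4 : (T : ℝ) ^ (-τ) = 2 ^ τ * (2 * (T : ℝ)) ^ (-τ) := by
    rw [Real.mul_rpow (by norm_num) hT0.le, ← mul_assoc, ← Real.rpow_add (by norm_num)]
    simp
  calc d ≤ κ * (T : ℝ) ^ (-τ) := hd
    _ = (κ * 2 ^ τ) * (2 * (T : ℝ)) ^ (-τ) := by rw [h4]; ring
    _ ≤ _ := mul_le_mul_of_nonneg_left h3 (by positivity)

end Pool.Agent.R770.NP
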